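import Pool.Agent.helper17.GFG.Spec

/-!
# Row KFG of project GFG (MP_561ff4_al)
-/

set_option autoImplicit false

open Finset

namespace Pool.Agent.EXT

open Pool.Agent.EXC

theorem KFG_th : ip C6 th th = 2 := by decide +kernel

theorem KFG_ga (i : Fin 3) : SR (ga3 i) := by
  unfold SR
  revert i
  decide +kernel

/-- a subring which contains a generator of the unit group is everything -/
theorem KFG_gen (K : Type) [Field K] [Finite K] : ∃ t : K, t ≠ 0 ∧ ∀ A : Subring K, t ∈ A → A = ⊤ := by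
  obtain ⟨u, hu⟩ := IsCyclic.exists_generator (α := Kˣ)
  refine ⟨(u : K), u.ne_zero, fun A hA => ?_⟩
  rw [eq_top_iff]
  intro x _
  by_cases hx : x = 0
  · rw [hx]; exact A.zero_mem
  · obtain ⟨n, hn⟩ := (mem_powers_iff_mem_zpowers (x := u) (y := Units.mk0 x hx)).2 (hu _)
    have h1 : x = (u : K) ^ n := by
      have h2 : (((u ^ n : Kˣ)) : K) = x := by
        have h3 : u ^ n = Units.mk0 x hx := hn
        rw [h3]; rfl
      rw [← h2]; push_cast; rfl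
    rw [h1]
    exact A.pow_mem hA n

theorem KFG (hKFI : KFI_stmt) (hKMU : KMU_stmt) (hKLG : KLG_stmt) (hKSC : KSC_stmt) (hSGR : SGR_stmt) :
    KFG_stmt := by
  intro K _ _ τ hτ c hc hc0
  obtain ⟨t, ht0, htA⟩ := KFG_gen K
  obtain ⟨r, hr⟩ : ∃ r : Fin 3 → K, r = ![1, 1, t] := ⟨_, rfl⟩
  have hex : ∀ i, ∃ g ∈ GS τ, IsS τ (ga3 i) (r i * c ^ (ch6 (ga3 i))) g := fun i =>
    (hSGR K τ hτ).1 (ga3 i) _ (KFG_ga i)
  choose g hgG hgS using hex
  refine ⟨g 0 * g 1 * g 2, mul_mem (mul_mem (hgG 0) (hgG 1)) (hgG 2), ?_⟩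
  intro v hv hpos e s' he H hH hHv hk
  -- commutation
  have hcm : ∀ i, g i * XG C6 v s' = XG C6 v s' * g i := fun i =>
    (hKSC K τ hτ).2.2.1 (ga3 i) v (KFG_ga i) hv (hpos i) _ s' (g i) (hgS i)
  have hcg : (g 0 * g 1 * g 2) * XG C6 v s' = XG C6 v s' * (g 0 * g 1 * g 2) := by
    calc (g 0 * g 1 * g 2) * XG C6 v s' = g 0 * g 1 * (g 2 * XG C6 v s') := by simp only [mul_assoc]
      _ = g 0 * (g 1 * XG C6 v s') * g 2 := by rw [hcm 2]; simp only [mul_assoc]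
      _ = (g 0 * XG C6 v s') * g 1 * g 2 := by rw [hcm 1]; simp only [mul_assoc]
      _ = XG C6 v s' * (g 0 * g 1 * g 2) := by rw [hcm 0]; simp only [mul_assoc]
  set G : Lm C6 K ≃ₗ[K] Lm C6 K := g 0 * g 1 * g 2 with hG
  have h1 : G * (XP6 c th e * XG C6 v s') * G⁻¹ = (G * XP6 c th e * G⁻¹) * XG C6 v s' := by
    have h2 : XG C6 v s' * G⁻¹ = G⁻¹ * XG C6 v s' := by
      have h3 : G⁻¹ * (G * XG C6 v s') * G⁻¹ = G⁻¹ * (XG C6 v s' * G) * G⁻¹ := by rw [hcg]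
      have h4 : G⁻¹ * (G * XG C6 v s') * G⁻¹ = XG C6 v s' * G⁻¹ := by group
      have h5 : G⁻¹ * (XG C6 v s' * G) * G⁻¹ = G⁻¹ * XG C6 v s' := by group
      rw [← h4, h3, h5]
    calc G * (XP6 c th e * XG C6 v s') * G⁻¹ = G * XP6 c th e * (XG C6 v s' * G⁻¹) := by simp only [mul_assoc]
      _ = _ := by rw [h2]; simp only [mul_assoc]
  rw [h1] at hk
  have h2 : G * XP6 c th e * G⁻¹ ∈ H := by
    have h3 := H.mul_mem hk (H.inv_mem hHv)
    rwa [mul_assoc, mul_inv_cancel, mul_one] at h3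
  have h3 : G * XP6 c th 1 * G⁻¹ ∈ H := by
    rcases he with he | he
    · rwa [he] at h2
    · have h4 : XP6 c th e = (XP6 c th 1)⁻¹ := by
        unfold XP6
        rw [he, (g_XG K th KFG_th (1 * c ^ ch6 th)).2.2]
        congr 1
        ring
      rw [h4] at h2
      have h5 := H.inv_mem h2
      have h6 : (G * (XP6 c th 1)⁻¹ * G⁻¹)⁻¹ = G * XP6 c th 1 * G⁻¹ := by group
      rwa [h6] at h5
  have hFI := hKFI K τ hτ c hc hc0 H hH r g hgS h3
  have e0 : r 0 = 1 := by rw [hr]; rfl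
  have e1 : r 1 = 1 := by rw [hr]; rfl
  have e2 : r 2 = t := by rw [hr]; rfl
  have f0 := hFI 0
  have f1 := hFI 1
  have f2 := hFI 2
  rw [e0] at f0
  rw [e1] at f1
  rw [e2] at f2
  exact hKLG K τ hτ c hc hc0 H hH (hKMU K τ hτ c hc hc0 H hH t ht0 htA f0 f1 f2)

end Pool.Agent.EXT
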